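import Pool.Agent.H67.AG.T1
import Pool.Agent.H67.AG.T4

/-!
Row MC of `gap_modules`: change of measure for the mismatch.
-/

set_option autoImplicit false

open MeasureTheory ProbabilityTheory Filter Topology Finset
open scoped Nat ENNReal

namespace Pool.Agent.H88.AG

open Pool.Agent.H67.AG

theorem dl_meas {Ω : Type} [MeasurableSpace Ω] {k : ℕ} {y y' : Fin k → Ω → ℝ} (hy : Tup y)
    (hy' : Tup y') (i : Fin k) : Measurable (dl y y' i) := by
  unfold dl
  exact Measurable.ite (measurableSet_eq_fun (hy.1 i) (hy'.1 i)) measurable_const measurable_const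

theorem dl_bd {Ω : Type} {k : ℕ} (y y' : Fin k → Ω → ℝ) (i : Fin k) (ω : Ω) :
    |dl y y' i ω| ≤ 1 := by
  unfold dl
  split_ifs <;> simp

theorem pf_MC (h1 : T_CH) (h2 : T_CR) : T_MC := by
  intro Ω _ P ν _ _ T k y y' hP hν hac hy hy'
  constructor
  · intro W
    have h : ∀ i : Fin k, ∀ᵐ ω ∂ν, (ν[dl y y' i | Inv T W]) ω = (P[dl y y' i | Inv T W]) ω :=
      fun i => h1 Ω P ν T W (dl y y' i) hP hν hac (dl_meas hy hy' i) ⟨1, dl_bd y y' i⟩
    filter_upwards [ae_all_iff.2 h] with ω hω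
    unfold Mis
    exact Finset.sum_congr rfl fun i _ => hω i
  · have h : ∀ i : Fin k, ∀ᵐ ω ∂ν, (ν[dl y y' i | Rt T]) ω = (P[dl y y' i | Rt T]) ω :=
      fun i => h2 Ω P ν T (dl y y' i) hP hν hac (dl_meas hy hy' i) ⟨1, dl_bd y y' i⟩
    filter_upwards [ae_all_iff.2 h] with ω hω
    unfold Mis
    exact Finset.sum_congr rfl fun i _ => hω i

end Pool.Agent.H88.AG
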