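import Pool.Agent.H67.AG.T3
import Pool.Agent.H67.AG.T4

/-!
Row A1 of `gap_modules`: the inequality for the conditional variances, fixed modulus.
-/

set_option autoImplicit false

open MeasureTheory ProbabilityTheory Filter Topology Finset
open scoped Nat ENNReal

namespace Pool.Agent.H88.AG

open Pool.Agent.H67.AG
open Pool.Agent.H24.T2 (Pset)

/-! ### pointwise inequalities -/

theorem bonf {k : ℕ} (a : Fin k → ℝ) (ha : ∀ i, 0 ≤ a i ∧ a i ≤ 1) (I : Finset (Fin k)) :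
    (∑ i ∈ I, a i ^ 2 ≤ (∑ i ∈ I, a i) ^ 2) ∧
    ∏ i ∈ I, (1 - a i) ≤
      1 - ∑ i ∈ I, a i + ((∑ i ∈ I, a i) ^ 2 - ∑ i ∈ I, a i ^ 2) / 2 := by
  induction I using Finset.induction_on with
  | empty => simp
  | insert x s hx ih =>
    obtain ⟨h1, h2⟩ := ih
    have hS : 0 ≤ ∑ i ∈ s, a i := Finset.sum_nonneg fun i _ => (ha i).1
    obtain ⟨hx0, hx1⟩ := ha x
    rw [Finset.sum_insert hx, Finset.sum_insert hx, Finset.prod_insert hx]
    constructor
    · nlinarith [mul_nonneg hx0 hS]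
    · have h3 : (1 - a x) * ∏ i ∈ s, (1 - a i) ≤
          (1 - a x) * (1 - ∑ i ∈ s, a i + ((∑ i ∈ s, a i) ^ 2 - ∑ i ∈ s, a i ^ 2) / 2) :=
        mul_le_mul_of_nonneg_left h2 (by linarith)
      have h4 : 0 ≤ a x * (((∑ i ∈ s, a i) ^ 2 - ∑ i ∈ s, a i ^ 2) / 2) :=
        mul_nonneg hx0 (by linarith)
      nlinarith [h3, h4]

theorem off_diag {k : ℕ} (a : Fin k → ℝ) (I : Finset (Fin k)) :
    ∑ i ∈ I, ∑ j ∈ I.erase i, a i * a j = (∑ i ∈ I, a i) ^ 2 - ∑ i ∈ I, a i ^ 2 := by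
  rw [sq (∑ i ∈ I, a i), Finset.sum_mul_sum, ← Finset.sum_sub_distrib]
  refine Finset.sum_congr rfl fun i hi => ?_
  rw [Finset.sum_erase_eq_sub hi]
  ring

theorem ptw {k : ℕ} (σ : ℝ) (hσ : σ = 1 ∨ σ = -1) (d : Fin k → ℝ) (hd : ∀ i, |d i| ≤ 1)
    (I : Finset (Fin k)) :
    σ * ∏ i, d i ≤ 1 - (1 / 2) * ∑ i ∈ I, (1 - d i ^ 2) +
      (1 / 4) * ∑ i ∈ I, ∑ j ∈ I.erase i, (1 - d i ^ 2) * (1 - d j ^ 2) := by
  have ha : ∀ i, 0 ≤ 1 - d i ^ 2 ∧ 1 - d i ^ 2 ≤ 1 := fun i => by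
    have := sq_le_one_iff_abs_le_one (d i) |>.2 (hd i)
    exact ⟨by linarith, by nlinarith [sq_nonneg (d i)]⟩
  have h1 : σ * ∏ i, d i ≤ ∏ i, |d i| := by
    rw [← Finset.abs_prod]
    rcases hσ with h | h <;> rw [h]
    · rw [one_mul]; exact le_abs_self _
    · rw [neg_one_mul]; exact neg_le_abs _
  have h2 : ∏ i, |d i| ≤ ∏ i ∈ I, |d i| := by
    rw [← Finset.prod_sdiff (Finset.subset_univ I)]
    have h3 : ∏ i ∈ Finset.univ \ I, |d i| ≤ 1 :=
      Finset.prod_le_one (fun i _ => abs_nonneg _) fun i _ => hd i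
    have h4 : 0 ≤ ∏ i ∈ I, |d i| := Finset.prod_nonneg fun i _ => abs_nonneg _
    nlinarith
  have h5 : (∏ i ∈ I, |d i|) ^ 2 = ∏ i ∈ I, (1 - (1 - d i ^ 2)) := by
    rw [← Finset.prod_pow]
    refine Finset.prod_congr rfl fun i _ => ?_
    rw [sq_abs]
    ring
  have h6 := (bonf (fun i => 1 - d i ^ 2) ha I).2
  rw [← h5] at h6
  have h7 := off_diag (fun i => 1 - d i ^ 2) I
  have h8 : ∏ i ∈ I, |d i| ≤ (1 + (∏ i ∈ I, |d i|) ^ 2) / 2 := by
    nlinarith [sq_nonneg (∏ i ∈ I, |d i| - 1)]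
  rw [h7]
  linarith

/-! ### averages over primes -/

theorem avgP_mono {W m : ℕ} {F G : ℕ → ℝ} (h : ∀ p ∈ Pset W m, F p ≤ G p) :
    avgP W m F ≤ avgP W m G := by
  unfold avgP
  exact div_le_div_of_nonneg_right (Finset.sum_le_sum h) (Nat.cast_nonneg _)

theorem avgP_bd {W m : ℕ} {F : ℕ → ℝ} {C : ℝ} (hC : 0 ≤ C) (h : ∀ p, |F p| ≤ C) :
    |avgP W m F| ≤ C := by
  unfold avgP
  rw [abs_div, Nat.abs_cast]
  refine div_le_of_le_mul₀ (Nat.cast_nonneg _) hC ?_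
  calc |∑ p ∈ Pset W m, F p| ≤ ∑ p ∈ Pset W m, |F p| := Finset.abs_sum_le_sum_abs _ _
    _ ≤ ∑ p ∈ Pset W m, C := Finset.sum_le_sum fun p _ => h p
    _ = C * ((Pset W m).card : ℝ) := by rw [Finset.sum_const, nsmul_eq_mul]; ring

theorem avgP_lin {W m : ℕ} (h0 : 0 < (Pset W m).card) {ι : Type} (s : Finset ι) (a : ℝ)
    (G : ι → ℕ → ℝ) :
    avgP W m (fun p => a + (1 / 4) * ∑ q ∈ s, G q p) =
      a + (1 / 4) * ∑ q ∈ s, avgP W m (G q) := by
  unfold avgP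
  have hc : ((Pset W m).card : ℝ) ≠ 0 := by
    have : (0 : ℝ) < (Pset W m).card := by exact_mod_cast h0
    exact this.ne'
  rw [Finset.sum_add_distrib, Finset.sum_const, nsmul_eq_mul, ← Finset.mul_sum,
    Finset.sum_comm, ← Finset.sum_div]
  field_simp

theorem smul_avgP (W m : ℕ) (a : ℝ) (F : ℕ → ℝ) :
    a * avgP W m F = avgP W m (fun p => a * F p) := by
  unfold avgP
  rw [← Finset.mul_sum, mul_div_assoc]

/-! ### invariance -/

theorem pre_dvd {Ω : Type} {T : Ω → Ω} {W n : ℕ} {A : Set Ω} (h : T^[W] ⁻¹' A = A)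
    (hn : W ∣ n) : T^[n] ⁻¹' A = A := by
  obtain ⟨c, rfl⟩ := hn
  rw [Function.iterate_mul, Set.preimage_iterate_eq]
  exact Function.iterate_fixed h c

theorem set_shift {Ω : Type} [MeasurableSpace Ω] {P : Measure Ω} {T : Ω ≃ᵐ Ω} {n : ℕ}
    {A : Set Ω} (hT : MeasurePreserving T P P) (hA : MeasurableSet A)
    (h : T^[n] ⁻¹' A = A) {f : Ω → ℝ} (hf : Measurable f) :
    ∫ x in A, f (T^[n] x) ∂P = ∫ x in A, f x ∂P := by
  have hn := hT.iterate n
  have h1 : ∫ y in A, f y ∂(Measure.map (T^[n]) P) = ∫ x in T^[n] ⁻¹' A, f (T^[n] x) ∂P :=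
    setIntegral_map hA hf.aestronglyMeasurable hn.measurable.aemeasurable
  rw [hn.map_eq, h] at h1
  exact h1.symm

theorem dvd_pred {W m p : ℕ} (hp : p ∈ Pset W m) : W ∣ p - 1 := by
  unfold Pset at hp
  rw [Finset.mem_filter] at hp
  exact (Nat.modEq_iff_dvd' hp.2.1.one_le).1 hp.2.2.symm

theorem int_bd {Ω : Type} [MeasurableSpace Ω] {P : Measure Ω} [IsFiniteMeasure P] {f : Ω → ℝ}
    (hf : AEStronglyMeasurable f P) (C : ℝ) (h : ∀ᵐ x ∂P, |f x| ≤ C) : Integrable f P :=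
  Integrable.of_bound hf C (by simpa only [Real.norm_eq_abs] using h)

/-! ### the functions -/

theorem Db_meas (c : CtxE) (i : Fin c.k) : Measurable (c.Db i) := by
  unfold CtxE.Db
  exact measurable_const.max (measurable_const.min
    (stronglyMeasurable_condExp.mono (tow c.μ c.T (c.k - 1)).2).measurable)

theorem Db_bd (c : CtxE) (i : Fin c.k) (x : c.X) : |c.Db i x| ≤ 1 := by
  unfold CtxE.Db
  rw [abs_le]
  exact ⟨le_max_left _ _, max_le (by norm_num) (min_le_left _ _)⟩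

theorem aa_meas (c : CtxE) (i : Fin c.k) : Measurable (c.aa i) := by
  unfold CtxE.aa
  exact measurable_const.sub ((Db_meas c i).pow_const 2)

theorem aa_bd (c : CtxE) (i : Fin c.k) (x : c.X) : |c.aa i x| ≤ 1 := by
  unfold CtxE.aa
  have h1 := sq_le_one_iff_abs_le_one (c.Db i x) |>.2 (Db_bd c i x)
  rw [abs_le]
  exact ⟨by linarith, by nlinarith [sq_nonneg (c.Db i x)]⟩

theorem ce_bd (c : CtxE) (i : Fin c.k) (Z : SA c.X) :
    ∀ᵐ x ∂c.μ, |(c.μ[c.aa i | Z.1]) x| ≤ 1 :=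
  ae_bdd_abs_condExp_of_ae_bdd_abs (Eventually.of_forall fun x => aa_bd c i x)

theorem ce_meas (c : CtxE) (i : Fin c.k) (Z : SA c.X) :
    AEStronglyMeasurable (c.μ[c.aa i | Z.1]) c.μ := integrable_condExp.aestronglyMeasurable

theorem ce_mul_int (c : CtxE) (i j : Fin c.k) (Z : SA c.X) :
    Integrable (fun x => (c.μ[c.aa i | Z.1]) x * (c.μ[c.aa j | Z.1]) x) c.μ := by
  refine int_bd ((ce_meas c i Z).mul (ce_meas c j Z)) 1 ?_
  filter_upwards [ce_bd c i Z, ce_bd c j Z] with x h1 h2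
  rw [abs_mul]
  exact mul_le_one₀ h1 (abs_nonneg _) h2

theorem V_sq_int (c : CtxE) (Z : SA c.X) (I : Finset (Fin c.k)) :
    Integrable (fun x => c.VI Z.1 I x ^ 2) c.μ := by
  have h4 : (fun x => c.VI Z.1 I x ^ 2) = fun x => ∑ i ∈ I, ∑ j ∈ I,
      (c.μ[c.aa i | Z.1]) x * (c.μ[c.aa j | Z.1]) x := by
    funext x
    unfold CtxE.VI
    rw [sq, Finset.sum_mul_sum]
  rw [h4]
  exact integrable_finsetSum _ fun i _ => integrable_finsetSum _ fun j _ => ce_mul_int c i j Z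

theorem V_sq (c : CtxE) (Z : SA c.X) (I : Finset (Fin c.k)) (A : Set c.X) :
    ∑ i ∈ I, ∑ j ∈ I.erase i,
      ∫ x in A, (c.μ[c.aa i | Z.1]) x * (c.μ[c.aa j | Z.1]) x ∂c.μ ≤
      ∫ x in A, c.VI Z.1 I x ^ 2 ∂c.μ := by
  have h1 : ∀ i j : Fin c.k, Integrable (fun x => (c.μ[c.aa i | Z.1]) x * (c.μ[c.aa j | Z.1]) x)
      (c.μ.restrict A) := fun i j => (ce_mul_int c i j Z).mono_measure Measure.restrict_le_self
  have h2 : ∑ i ∈ I, ∑ j ∈ I.erase i,
      ∫ x in A, (c.μ[c.aa i | Z.1]) x * (c.μ[c.aa j | Z.1]) x ∂c.μ =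
      ∫ x in A, ∑ i ∈ I, ∑ j ∈ I.erase i,
        (c.μ[c.aa i | Z.1]) x * (c.μ[c.aa j | Z.1]) x ∂c.μ := by
    rw [integral_finsetSum _ fun i _ => integrable_finsetSum _ fun j _ => h1 i j]
    refine Finset.sum_congr rfl fun i _ => ?_
    rw [integral_finsetSum _ fun j _ => h1 i j]
  rw [h2]
  refine integral_mono (integrable_finsetSum _ fun i _ => integrable_finsetSum _ fun j _ =>
    h1 i j) ((V_sq_int c Z I).mono_measure Measure.restrict_le_self) fun x => ?_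
  simp only
  rw [off_diag (fun i => (c.μ[c.aa i | Z.1]) x) I]
  unfold CtxE.VI
  have : 0 ≤ ∑ i ∈ I, (c.μ[c.aa i | Z.1]) x ^ 2 := Finset.sum_nonneg fun i _ => sq_nonneg _
  linarith

theorem V_int (c : CtxE) (Z : SA c.X) (I : Finset (Fin c.k))
    (A : Set c.X) (hA : MeasurableSet[Z.1] A) :
    ∫ x in A, c.VI Z.1 I x ∂c.μ = ∑ i ∈ I, ∫ x in A, c.aa i x ∂c.μ := by
  unfold CtxE.VI
  rw [integral_finsetSum _ fun i _ => integrable_condExp.mono_measure Measure.restrict_le_self]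
  refine Finset.sum_congr rfl fun i _ => ?_
  exact setIntegral_condExp Z.2
    (int_bd (aa_meas c i).aestronglyMeasurable 1 (Eventually.of_forall (aa_bd c i))) hA

/-- the integrated inequality for one prime -/
theorem one_p (c : CtxE) (W : ℕ) (I : Finset (Fin c.k)) (A : Set c.X) (hA : MeasurableSet A)
    (hAW : c.T^[W] ⁻¹' A = A) (m p : ℕ) (hp : p ∈ Pset W m) :
    c.σ * ∫ x in A, ∏ i, c.Db i (c.T^[(p - 1) * c.β i] x) ∂c.μ ≤
      (c.μ.real A - (1 / 2) * ∑ i ∈ I, ∫ x in A, c.aa i x ∂c.μ) +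
      (1 / 4) * ∑ q ∈ I.sigma (fun i => I.erase i),
        ∫ x, A.indicator (fun _ => (1 : ℝ)) x * c.aa q.1 (c.T^[(p - 1) * c.β q.1] x) *
          c.aa q.2 (c.T^[(p - 1) * c.β q.2] x) ∂c.μ := by
  have hT := c.erg.toMeasurePreserving
  have hm : ∀ n : ℕ, Measurable (c.T^[n]) := fun n => (hT.iterate n).measurable
  have hS : ∀ i : Fin c.k, ∫ x in A, c.aa i x ∂c.μ =
      ∫ x in A, c.aa i (c.T^[(p - 1) * c.β i] x) ∂c.μ := fun i =>
    (set_shift hT hA (pre_dvd hAW (Dvd.dvd.mul_right (dvd_pred hp) _)) (aa_meas c i)).symm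
  have hi1 : ∀ i : Fin c.k, Integrable (fun x => c.aa i (c.T^[(p - 1) * c.β i] x))
      (c.μ.restrict A) := fun i =>
    int_bd ((aa_meas c i).comp (hm _)).aestronglyMeasurable 1
      (Eventually.of_forall fun x => aa_bd c i _)
  have hi2 : ∀ i j : Fin c.k, Integrable (fun x => c.aa i (c.T^[(p - 1) * c.β i] x) *
      c.aa j (c.T^[(p - 1) * c.β j] x)) (c.μ.restrict A) := fun i j =>
    int_bd (((aa_meas c i).comp (hm _)).mul ((aa_meas c j).comp (hm _))).aestronglyMeasurable 1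
      (Eventually.of_forall fun x => by
        rw [abs_mul]
        exact mul_le_one₀ (aa_bd c i _) (abs_nonneg _) (aa_bd c j _))
  have hI : ∀ i j : Fin c.k, ∫ x, A.indicator (fun _ => (1 : ℝ)) x *
      c.aa i (c.T^[(p - 1) * c.β i] x) * c.aa j (c.T^[(p - 1) * c.β j] x) ∂c.μ =
      ∫ x in A, c.aa i (c.T^[(p - 1) * c.β i] x) * c.aa j (c.T^[(p - 1) * c.β j] x) ∂c.μ := by
    intro i j
    rw [← integral_indicator hA]
    refine integral_congr_ae (Eventually.of_forall fun x => ?_)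
    by_cases hx : x ∈ A
    · simp [hx]
    · simp [hx]
  have hprod : Integrable (fun x => ∏ i, c.Db i (c.T^[(p - 1) * c.β i] x)) (c.μ.restrict A) := by
    refine int_bd (Finset.measurable_prod _ fun i _ =>
      (Db_meas c i).comp (hm _)).aestronglyMeasurable 1 (Eventually.of_forall fun x => ?_)
    rw [Finset.abs_prod]
    exact Finset.prod_le_one (fun i _ => abs_nonneg _) fun i _ => Db_bd c i _
  rw [← integral_const_mul]
  have hR : (c.μ.real A - (1 / 2) * ∑ i ∈ I, ∫ x in A, c.aa i x ∂c.μ) +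
      (1 / 4) * ∑ q ∈ I.sigma (fun i => I.erase i),
        ∫ x, A.indicator (fun _ => (1 : ℝ)) x * c.aa q.1 (c.T^[(p - 1) * c.β q.1] x) *
          c.aa q.2 (c.T^[(p - 1) * c.β q.2] x) ∂c.μ =
      ∫ x in A, (1 - (1 / 2) * ∑ i ∈ I, c.aa i (c.T^[(p - 1) * c.β i] x) +
        (1 / 4) * ∑ i ∈ I, ∑ j ∈ I.erase i, c.aa i (c.T^[(p - 1) * c.β i] x) *
          c.aa j (c.T^[(p - 1) * c.β j] x)) ∂c.μ := by
    have e1 : Integrable (fun x => ∑ i ∈ I, c.aa i (c.T^[(p - 1) * c.β i] x))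
        (c.μ.restrict A) := integrable_finsetSum _ fun i _ => hi1 i
    have e2 : Integrable (fun x => ∑ i ∈ I, ∑ j ∈ I.erase i,
        c.aa i (c.T^[(p - 1) * c.β i] x) * c.aa j (c.T^[(p - 1) * c.β j] x))
        (c.μ.restrict A) := integrable_finsetSum _ fun i _ =>
          integrable_finsetSum _ fun j _ => hi2 i j
    have e4 : ∫ x in A, (1 - (1 / 2) * ∑ i ∈ I, c.aa i (c.T^[(p - 1) * c.β i] x) +
        (1 / 4) * ∑ i ∈ I, ∑ j ∈ I.erase i, c.aa i (c.T^[(p - 1) * c.β i] x) *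
          c.aa j (c.T^[(p - 1) * c.β j] x)) ∂c.μ =
        (∫ x in A, (1 : ℝ) ∂c.μ - (1 / 2) * ∫ x in A, ∑ i ∈ I,
          c.aa i (c.T^[(p - 1) * c.β i] x) ∂c.μ) +
        (1 / 4) * ∫ x in A, ∑ i ∈ I, ∑ j ∈ I.erase i, c.aa i (c.T^[(p - 1) * c.β i] x) *
          c.aa j (c.T^[(p - 1) * c.β j] x) ∂c.μ := by
      rw [← integral_const_mul, ← integral_const_mul,
        ← integral_sub (integrable_const _) (e1.const_mul _)]
      exact integral_add ((integrable_const _).sub (e1.const_mul _)) (e2.const_mul _)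
    rw [e4, integral_finsetSum _ fun i _ => hi1 i,
      integral_finsetSum _ fun i _ => integrable_finsetSum _ fun j _ => hi2 i j,
      Finset.sum_sigma]
    have e3 : ∫ x in A, (1 : ℝ) ∂c.μ = c.μ.real A := by
      rw [integral_const, smul_eq_mul, mul_one, Measure.real, Measure.restrict_apply_univ,
        Measure.real]
    rw [e3]
    congr 1
    · congr 2
      exact Finset.sum_congr rfl fun i _ => hS i
    · congr 1
      refine Finset.sum_congr rfl fun i _ => ?_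
      rw [integral_finsetSum _ fun j _ => hi2 i j]
      exact Finset.sum_congr rfl fun j _ => hI i j
  rw [hR]
  refine integral_mono (hprod.const_mul _) ?_ fun x => ?_
  · exact ((integrable_const _).sub ((integrable_finsetSum _ fun i _ => hi1 i).const_mul _)).add
      ((integrable_finsetSum _ fun i _ => integrable_finsetSum _ fun j _ => hi2 i j).const_mul _)
  · exact ptw c.σ c.σv (fun i => c.Db i (c.T^[(p - 1) * c.β i] x)) (fun i => Db_bd c i _) I

/-- a sum over the pairs of distinct elements is at most the sum over all the pairs -/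
theorem pairs_le {k : ℕ} (I : Finset (Fin k)) (D : Fin k → ℝ) (hD : ∀ i, 0 ≤ D i) (a : ℝ)
    (ha : 0 ≤ a) :
    ∑ q ∈ I.sigma (fun i => I.erase i), (D q.1 + a) ≤ k * ∑ i, D i + (k : ℝ) ^ 2 * a := by
  rw [Finset.sum_sigma]
  calc ∑ i ∈ I, ∑ j ∈ I.erase i, (D i + a) ≤ ∑ i ∈ I, ∑ j : Fin k, (D i + a) :=
        Finset.sum_le_sum fun i _ => Finset.sum_le_sum_of_subset_of_nonneg
          (Finset.subset_univ _) fun j _ _ => add_nonneg (hD i) ha
    _ ≤ ∑ i : Fin k, ∑ j : Fin k, (D i + a) :=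
        Finset.sum_le_sum_of_subset_of_nonneg (Finset.subset_univ _) fun i _ _ =>
          Finset.sum_nonneg fun j _ => add_nonneg (hD i) ha
    _ = k * ∑ i, D i + (k : ℝ) ^ 2 * a := by
        simp only [Finset.sum_const, Finset.card_univ, Fintype.card_fin, nsmul_eq_mul]
        rw [Finset.mul_sum, ← Finset.mul_sum, Finset.sum_add_distrib, Finset.sum_const,
          Finset.card_univ, Fintype.card_fin, nsmul_eq_mul, ← Finset.mul_sum]
        ring

theorem pf_A1 (hul : T_UL) (hpn : T_PN) (hpi : T_PI) (h0 : T_A0) : T_A1 := by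
  intro c hk w I A hw hA
  have hT := c.erg.toMeasurePreserving
  obtain ⟨hA1, hA2⟩ := MeasurableSpace.measurableSet_invariants.1 hA
  have hWpos : 0 < c.W w := Nat.mul_pos c.Qpos (Nat.factorial_pos w)
  have hwW : w ! ∣ c.W w := Dvd.intro_left _ rfl
  let Z : SA c.X := ⟨Pool.Agent.H67.AG.Inv c.T (c.W w), MeasurableSpace.invariants_le _⟩
  obtain ⟨-, hmono, -, hsmul, hconst⟩ := hul (c.U w)
  -- the quantities
  set dlt : Fin c.k → ℝ := fun i => ∫ x, |(c.μ[c.aa i | Inv c.T (c.W w * Dlt c.β)]) x -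
      (c.μ[c.aa i | Inv c.T (c.W w)]) x| ∂c.μ with hdlt
  have hdlt0 : ∀ i, 0 ≤ dlt i := fun i => integral_nonneg fun x => abs_nonneg _
  set ps : c.X → ℝ := A.indicator fun _ => (1 : ℝ) with hps
  have hps01 : ∀ x, 0 ≤ ps x ∧ ps x ≤ 1 := fun x => by
    rw [hps]
    by_cases hx : x ∈ A
    · simp [hx]
    · simp [hx]
  have hpsm : Measurable[Inv c.T (c.W w)] ps :=
    Measurable.indicator (m := Pool.Agent.H67.AG.Inv c.T (c.W w)) measurable_const hA
  have hD0 : 0 < Dlt c.β := by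
    unfold Dlt
    refine Finset.prod_pos fun i _ => Finset.prod_pos fun j _ => ?_
    split_ifs with h
    · exact Nat.one_pos
    · have : ((c.β i : ℤ) - c.β j) ≠ 0 := by
        intro h2
        exact h (by exact_mod_cast sub_eq_zero.1 h2)
      exact Int.natAbs_pos.2 this
  have hDd : ∀ i j : Fin c.k, i ≠ j → ((c.β i : ℤ) - c.β j).natAbs ∣ Dlt c.β := by
    intro i j hij
    unfold Dlt
    have h1 : (if c.β i = c.β j then 1 else ((c.β i : ℤ) - c.β j).natAbs) =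
        ((c.β i : ℤ) - c.β j).natAbs := if_neg fun h => hij (c.inj h)
    have h2 := Finset.dvd_prod_of_mem
      (fun j => if c.β i = c.β j then 1 else ((c.β i : ℤ) - c.β j).natAbs) (Finset.mem_univ j)
    have h3 := Finset.dvd_prod_of_mem
      (fun i => ∏ j, if c.β i = c.β j then 1 else ((c.β i : ℤ) - c.β j).natAbs)
      (Finset.mem_univ i)
    rw [← h1]
    exact h2.trans h3
  -- the pairs
  have hE : ∀ i j : Fin c.k, ∫ x, ps x * (c.μ[c.aa i | Inv c.T (c.W w)]) x *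
      (c.μ[c.aa j | Inv c.T (c.W w)]) x ∂c.μ =
      ∫ x in A, (c.μ[c.aa i | Z.1]) x * (c.μ[c.aa j | Z.1]) x ∂c.μ := by
    intro i j
    rw [← integral_indicator hA1]
    refine integral_congr_ae (Eventually.of_forall fun x => ?_)
    by_cases hx : x ∈ A
    · simp [hps, hx, Z]
    · simp [hps, hx]
  have hd : ∀ i : Fin c.k, ∫ x, ps x * |(c.μ[c.aa i | Inv c.T (c.W w * Dlt c.β)]) x -
      (c.μ[c.aa i | Inv c.T (c.W w)]) x| ∂c.μ ≤ dlt i := by
    intro i
    have hint : Integrable (fun x => |(c.μ[c.aa i | Inv c.T (c.W w * Dlt c.β)]) x -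
        (c.μ[c.aa i | Inv c.T (c.W w)]) x|) c.μ :=
      (integrable_condExp.sub integrable_condExp).abs
    refine integral_mono_of_nonneg (Eventually.of_forall fun x =>
      mul_nonneg (hps01 x).1 (abs_nonneg _)) hint (Eventually.of_forall fun x => ?_)
    exact mul_le_of_le_one_left (abs_nonneg _) (hps01 x).2
  have hpsi : ∫ x, ps x ∂c.μ ≤ 1 := by
    rw [hps, integral_indicator hA1, integral_const, smul_eq_mul, mul_one,
      measureReal_restrict_apply MeasurableSet.univ, Set.univ_inter]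
    exact measureReal_le_one
  -- the main inequality
  have key : ∀ ε : ℝ, 0 < ε →
      (1 : ℝ) * c.μ.real A - 2 * Lam (c.U w) (c.W w) c.μ c.T c.β c.σ c.Dt A ≤
      (c.μ.real A - (1 / 2) * ∫ x in A, c.VI (Inv c.T (c.W w)) I x ∂c.μ) +
      (1 / 4) * (∫ x in A, c.VI (Inv c.T (c.W w)) I x ^ 2 ∂c.μ +
        (c.k * ∑ i, dlt i + (c.k : ℝ) ^ 2 * (1 / w + ε))) := by
    intro ε hε
    have hpair : ∀ q : Fin c.k × Fin c.k, q.1 ≠ q.2 → ∀ᶠ m in (c.U w : Filter ℕ),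
        avgP (c.W w) m (fun p => ∫ x, ps x * c.aa q.1 (c.T^[(p - 1) * c.β q.1] x) *
          c.aa q.2 (c.T^[(p - 1) * c.β q.2] x) ∂c.μ) ≤
        ∫ x in A, (c.μ[c.aa q.1 | Z.1]) x * (c.μ[c.aa q.2 | Z.1]) x ∂c.μ +
          (dlt q.1 + (1 / w + ε)) := by
      intro q hq
      obtain ⟨m₀, hm₀⟩ := hpi c.X c.μ c.T w (c.W w) (c.β q.1) (c.β q.2) (Dlt c.β) ps
        (c.aa q.1) (c.aa q.2) ε hT hpsm hps01 (aa_meas c q.1) (aa_bd c q.1) (aa_meas c q.2)
        (aa_bd c q.2) hw hWpos hwW (fun h => hq (c.inj h)) (hDd q.1 q.2 hq) hD0 hε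
      refine ((eventually_ge_atTop m₀).filter_mono (c.hU w)).mono fun m hm => ?_
      have h1 := (abs_le.1 (hm₀ m hm)).2
      rw [hE q.1 q.2] at h1
      have h2 := hd q.1
      have h3 : 1 / (w : ℝ) * ∫ x, ps x ∂c.μ ≤ 1 / w :=
        mul_le_of_le_one_right (by positivity) hpsi
      linarith
    have hall : ∀ᶠ m in (c.U w : Filter ℕ), ∀ q : Fin c.k × Fin c.k, q.1 ≠ q.2 →
        avgP (c.W w) m (fun p => ∫ x, ps x * c.aa q.1 (c.T^[(p - 1) * c.β q.1] x) *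
          c.aa q.2 (c.T^[(p - 1) * c.β q.2] x) ∂c.μ) ≤
        ∫ x in A, (c.μ[c.aa q.1 | Z.1]) x * (c.μ[c.aa q.2 | Z.1]) x ∂c.μ +
          (dlt q.1 + (1 / w + ε)) := by
      rw [eventually_all]
      intro q
      by_cases hq : q.1 ≠ q.2
      · exact (hpair q hq).mono fun m hm _ => hm
      · exact Eventually.of_forall fun m h => absurd h hq
    obtain ⟨cc, -, m₁, hm₁⟩ := hpn (c.W w) (c.W w) hWpos (dvd_refl _)
    have hcard : ∀ᶠ m in (c.U w : Filter ℕ), 0 < (Pset (c.W w) m).card :=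
      ((eventually_ge_atTop m₁).filter_mono (c.hU w)).mono fun m hm => (hm₁ m hm).2
    rw [h0 c hk w A hA]
    have hFb : ∀ m, |avgP (c.W w) m fun p =>
        ∫ x in A, ∏ i, c.Db i (c.T^[(p - 1) * c.β i] x) ∂c.μ| ≤ 1 := by
      intro m
      refine avgP_bd zero_le_one fun p => ?_
      have h1 : ∀ x, ‖∏ i, c.Db i (c.T^[(p - 1) * c.β i] x)‖ ≤ 1 := fun x => by
        rw [Real.norm_eq_abs, Finset.abs_prod]
        exact Finset.prod_le_one (fun i _ => abs_nonneg _) fun i _ => Db_bd c i _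
      have h2 := norm_setIntegral_le_of_norm_le_const (μ := c.μ) (s := A)
        (measure_lt_top c.μ A) (fun x _ => h1 x)
      rw [Real.norm_eq_abs] at h2
      refine h2.trans ?_
      rw [one_mul]
      exact measureReal_le_one
    rw [← hsmul _ c.σ ⟨1, hFb⟩]
    refine (hmono _ (fun _ => _) ⟨|c.σ| * 1, fun m => ?_⟩ ⟨_, fun _ => le_rfl⟩ ?_).trans
      (le_of_eq (hconst _))
    · rw [abs_mul]
      exact mul_le_mul_of_nonneg_left (hFb m) (abs_nonneg _)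
    filter_upwards [hall, hcard] with m hm1 hm2
    rw [smul_avgP]
    refine (avgP_mono fun p hp => one_p c (c.W w) I A hA1 hA2 m p hp).trans ?_
    have hav := avgP_lin hm2 (I.sigma fun i => I.erase i)
      (c.μ.real A - (1 / 2) * ∑ i ∈ I, ∫ x in A, c.aa i x ∂c.μ)
      (fun (q : (_ : Fin c.k) × Fin c.k) p => ∫ x, A.indicator (fun _ => (1 : ℝ)) x *
        c.aa q.1 (c.T^[(p - 1) * c.β q.1] x) * c.aa q.2 (c.T^[(p - 1) * c.β q.2] x) ∂c.μ)
    rw [hav]
    have hV : ∫ x in A, c.VI (Inv c.T (c.W w)) I x ∂c.μ = ∑ i ∈ I, ∫ x in A, c.aa i x ∂c.μ :=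
      V_int c Z I A hA
    rw [hV]
    have hS1 : ∑ q ∈ I.sigma (fun i => I.erase i), avgP (c.W w) m (fun p =>
        ∫ x, A.indicator (fun _ => (1 : ℝ)) x * c.aa q.1 (c.T^[(p - 1) * c.β q.1] x) *
          c.aa q.2 (c.T^[(p - 1) * c.β q.2] x) ∂c.μ) ≤
        ∑ q ∈ I.sigma (fun i => I.erase i),
          (∫ x in A, (c.μ[c.aa q.1 | Z.1]) x * (c.μ[c.aa q.2 | Z.1]) x ∂c.μ +
            (dlt q.1 + (1 / w + ε))) := by
      refine Finset.sum_le_sum fun q hq => hm1 (q.1, q.2) ?_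
      have h1 := (Finset.mem_sigma.1 hq).2
      exact (Finset.ne_of_mem_erase h1).symm
    have hS2 : ∑ q ∈ I.sigma (fun i => I.erase i),
          (∫ x in A, (c.μ[c.aa q.1 | Z.1]) x * (c.μ[c.aa q.2 | Z.1]) x ∂c.μ +
            (dlt q.1 + (1 / w + ε))) ≤ ∫ x in A, c.VI (Inv c.T (c.W w)) I x ^ 2 ∂c.μ +
        (c.k * ∑ i, dlt i + (c.k : ℝ) ^ 2 * (1 / w + ε)) := by
      rw [Finset.sum_add_distrib, Finset.sum_sigma]
      exact add_le_add (V_sq c Z I A) (pairs_le I dlt hdlt0 (1 / w + ε) (by positivity))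
    linarith
  -- the end
  have hVi : Integrable (fun x => c.VI (Inv c.T (c.W w)) I x) (c.μ.restrict A) := by
    unfold CtxE.VI
    exact integrable_finsetSum _ fun i _ =>
      integrable_condExp.mono_measure Measure.restrict_le_self
  have hVi2 : Integrable (fun x => c.VI (Inv c.T (c.W w)) I x ^ 2) (c.μ.restrict A) :=
    (V_sq_int c Z I).mono_measure Measure.restrict_le_self
  rw [integral_sub hVi (hVi2.div_const 2), integral_div]
  refine le_of_forall_pos_le_add fun e he => ?_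
  have hk2 : (0 : ℝ) < (c.k : ℝ) ^ 2 + 1 := by positivity
  have h1 := key (e / ((c.k : ℝ) ^ 2 + 1)) (div_pos he hk2)
  have h2 : (c.k : ℝ) ^ 2 * (e / ((c.k : ℝ) ^ 2 + 1)) ≤ e := by
    rw [← mul_div_assoc, div_le_iff₀ hk2]
    nlinarith
  have h3 : 0 ≤ (c.k : ℝ) * ∑ i, dlt i :=
    mul_nonneg (Nat.cast_nonneg _) (Finset.sum_nonneg fun i _ => hdlt0 i)
  have h4 : 0 ≤ (c.k : ℝ) ^ 2 / w := by positivity
  have h5 : (c.k : ℝ) ^ 2 * (1 / w + e / ((c.k : ℝ) ^ 2 + 1)) =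
      (c.k : ℝ) ^ 2 / w + (c.k : ℝ) ^ 2 * (e / ((c.k : ℝ) ^ 2 + 1)) := by ring
  rw [h5] at h1
  linarith

end Pool.Agent.H88.AG
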